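import Pool.Agent.Helper70_PDS.Stmts

namespace PDS.H9

open Multiset

/-- adjacency read off from a list of edges -/
def adjB (L : List (ℕ × ℕ × Bool)) (a b : ℕ) : Bool :=
  L.any fun e => (e.1 == a && e.2.1 == b) || (e.1 == b && e.2.1 == a)

/-- the checks for a list of edges with pages -/
def chk (L : List (ℕ × ℕ × Bool)) : Bool :=
  L.all fun e => decide (e.1 < e.2.1) && L.all fun f =>
    !(decide (e.1 < f.1) && decide (f.1 < e.2.1) && decide (e.2.1 < f.2.1) && (e.2.2 == f.2.2)) &&
    !(decide (e.1 = f.1) && decide (e.2.1 = f.2.1) && (e.2.2 != f.2.2))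

theorem chk_lt {L : List (ℕ × ℕ × Bool)} (h : chk L = true) : ∀ e ∈ L, e.1 < e.2.1 := by
  intro e he
  have h1 := (List.all_eq_true.mp h) e he
  rw [Bool.and_eq_true] at h1
  exact of_decide_eq_true h1.1

theorem chk_nc {L : List (ℕ × ℕ × Bool)} (h : chk L = true) : ∀ e ∈ L, ∀ f ∈ L, e.1 < f.1 →
    f.1 < e.2.1 → e.2.1 < f.2.1 → e.2.2 ≠ f.2.2 := by
  intro e he f hf h1 h2 h3 h4
  have h5 := (List.all_eq_true.mp h) e he
  rw [Bool.and_eq_true] at h5
  have h6 := (List.all_eq_true.mp h5.2) f hf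
  rw [Bool.and_eq_true] at h6
  have h7 := h6.1
  simp [h1, h2, h3, h4] at h7

theorem chk_pg {L : List (ℕ × ℕ × Bool)} (h : chk L = true) : ∀ e ∈ L, ∀ f ∈ L, e.1 = f.1 →
    e.2.1 = f.2.1 → e.2.2 = f.2.2 := by
  intro e he f hf h1 h2
  have h5 := (List.all_eq_true.mp h) e he
  rw [Bool.and_eq_true] at h5
  have h6 := (List.all_eq_true.mp h5.2) f hf
  rw [Bool.and_eq_true] at h6
  have h7 := h6.2
  simpa [h1, h2] using h7

/-- the graph of a list of edges -/
def LG (m : ℕ) (L : List (ℕ × ℕ × Bool)) : SimpleGraph (Fin m) where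
  Adj a b := a ≠ b ∧ adjB L a b = true
  symm := ⟨by
    rintro a b ⟨h1, h2⟩
    refine ⟨h1.symm, ?_⟩
    rw [adjB, List.any_eq_true] at h2 ⊢
    obtain ⟨e, he, h⟩ := h2
    refine ⟨e, he, ?_⟩
    rw [Bool.or_comm]
    exact h⟩
  loopless := ⟨fun a h => h.1 rfl⟩

theorem adjB_lt {L : List (ℕ × ℕ × Bool)} (h : chk L = true) {a b : ℕ} (hab : a < b)
    (hadj : adjB L a b = true) : ∃ e ∈ L, e.1 = a ∧ e.2.1 = b := by
  rw [adjB, List.any_eq_true] at hadj
  obtain ⟨e, he, h1⟩ := hadj
  have h2 := chk_lt h e he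
  refine ⟨e, he, ?_⟩
  simp only [Bool.or_eq_true, Bool.and_eq_true, beq_iff_eq] at h1
  rcases h1 with h1 | h1
  · exact h1
  · omega

theorem finBook_LG (m : ℕ) (L : List (ℕ × ℕ × Bool)) (h : chk L = true) : FinBook (LG m L) := by
  refine ⟨fun a b => ∃ e ∈ L, e.2.2 = true ∧ ((e.1 = a ∧ e.2.1 = b) ∨ (e.1 = b ∧ e.2.1 = a)),
    ?_, ?_⟩
  · rintro a b ⟨e, he, h1, h2⟩
    exact ⟨e, he, h1, h2.symm⟩
  · rintro a b c d ⟨-, h1⟩ ⟨-, h2⟩ hup hac hcb hbd
    have hac' : (a : ℕ) < c := hac
    have hcb' : (c : ℕ) < b := hcb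
    have hbd' : (b : ℕ) < d := hbd
    obtain ⟨e, he, he1, he2⟩ := adjB_lt h (by omega : (a : ℕ) < b) h1
    obtain ⟨f, hf, hf1, hf2⟩ := adjB_lt h (by omega : (c : ℕ) < d) h2
    have hne := chk_nc h e he f hf (by omega) (by omega) (by omega)
    have hpe : (∃ e ∈ L, e.2.2 = true ∧ ((e.1 = (a : ℕ) ∧ e.2.1 = (b : ℕ)) ∨
        (e.1 = (b : ℕ) ∧ e.2.1 = (a : ℕ)))) ↔ e.2.2 = true := by
      constructor
      · rintro ⟨g, hg, hg1, hg2⟩
        have hlt := chk_lt h g hg
        rcases hg2 with hg2 | hg2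
        · rw [← chk_pg h g hg e he (by omega) (by omega)]; exact hg1
        · omega
      · intro h3; exact ⟨e, he, h3, Or.inl ⟨he1, he2⟩⟩
    have hpf : (∃ e ∈ L, e.2.2 = true ∧ ((e.1 = (c : ℕ) ∧ e.2.1 = (d : ℕ)) ∨
        (e.1 = (d : ℕ) ∧ e.2.1 = (c : ℕ)))) ↔ f.2.2 = true := by
      constructor
      · rintro ⟨g, hg, hg1, hg2⟩
        have hlt := chk_lt h g hg
        rcases hg2 with hg2 | hg2
        · rw [← chk_pg h g hg f hf (by omega) (by omega)]; exact hg1
        · omega
      · intro h3; exact ⟨f, hf, h3, Or.inl ⟨hf1, hf2⟩⟩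
    apply hne
    rw [Bool.eq_iff_iff, ← hpe, ← hpf]
    exact hup

/-- the degree in a list graph -/
def degB (m : ℕ) (L : List (ℕ × ℕ × Bool)) (a : Fin m) : ℕ :=
  ((Finset.univ : Finset (Fin m)).filter fun b => a ≠ b ∧ adjB L a b = true).card

theorem dg_LG (m : ℕ) (L : List (ℕ × ℕ × Bool)) (a : Fin m) : dg (LG m L) a = degB m L a := by
  rw [dg, degB, ← Set.ncard_coe_finset]
  congr 1
  ext b
  simp [LG]

theorem raise_of (hins : InsStmt) (c i k : ℕ) (L : List (ℕ × ℕ × Bool)) (h : chk L = true)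
    (h0 : degB (k + 1) L 0 = c) (h1 : ∀ j : Fin k, degB (k + 1) L j.succ = i) : Raise c i k := by
  intro x D hD
  have h2 := hins k (LG (k + 1) L) (finBook_LG _ L h) x D hD
  rw [dg_LG, h0] at h2
  have h3 : ((Finset.univ : Finset (Fin k)).val.map fun j => dg (LG (k + 1) L) j.succ) =
      replicate k i := by
    have h4 : (fun j : Fin k => dg (LG (k + 1) L) j.succ) = fun _ => i := by
      funext j
      rw [dg_LG, h1]
    rw [h4, Multiset.map_const']
    congr 1
    simp
  rwa [h3] at h2

theorem gad (hins : InsStmt) : GadStmt := by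
  refine ⟨?_, ?_, ?_, ?_, ?_, ?_, ?_, ?_⟩
  · exact raise_of hins 2 1 2 [(0, 1, false), (0, 2, false)] (by decide) (by decide) (by decide)
  · exact raise_of hins 2 2 2 [(0, 1, false), (1, 2, false), (0, 2, false)]
      (by decide) (by decide) (by decide)
  · exact raise_of hins 2 3 4 [(0, 1, false), (1, 2, false), (2, 3, false), (3, 4, false),
      (0, 4, false), (1, 3, true), (2, 4, false)] (by decide) (by decide) (by decide)
  · exact raise_of hins 2 4 6 [(0, 1, false), (1, 2, false), (2, 3, false), (3, 4, false),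
      (4, 5, false), (5, 6, false), (0, 6, true), (1, 3, true), (3, 5, true), (1, 5, true),
      (2, 4, false), (4, 6, false), (2, 6, false)]
      (by decide +kernel) (by decide +kernel) (by decide +kernel)
  · exact raise_of hins 2 5 12 [(1, 2, false), (1, 3, false), (1, 6, false), (2, 3, false),
      (3, 4, false), (3, 5, false), (3, 6, false), (4, 5, false), (5, 6, false), (6, 7, false),
      (6, 12, false), (7, 8, false), (7, 11, false), (7, 12, false), (8, 9, false),
      (8, 11, false), (9, 10, false), (9, 11, false), (10, 11, false), (11, 12, false),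
      (1, 10, true), (2, 4, true), (2, 9, true), (2, 10, true), (4, 8, true), (4, 9, true),
      (5, 7, true), (5, 8, true), (10, 12, true), (0, 1, false), (0, 12, false)]
      (by decide +kernel) (by decide +kernel) (by decide +kernel)
  · exact raise_of hins 1 1 1 [(0, 1, false)] (by decide) (by decide) (by decide)
  · exact raise_of hins 1 3 5 [(0, 1, false), (1, 2, false), (2, 3, false), (3, 4, false),
      (4, 5, false), (1, 5, true), (2, 4, true), (3, 5, false)]
      (by decide +kernel) (by decide +kernel) (by decide +kernel)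
  · exact raise_of hins 1 5 15 [(1, 2, false), (1, 15, false), (2, 3, false), (2, 7, false),
      (2, 8, false), (2, 15, false), (3, 4, false), (3, 6, false), (3, 7, false), (4, 5, false),
      (5, 6, false), (6, 7, false), (7, 8, false), (8, 9, false), (8, 11, false),
      (8, 13, false), (9, 10, false), (9, 11, false), (10, 11, false), (11, 12, false),
      (11, 13, false), (12, 13, false), (13, 14, false), (13, 15, false), (14, 15, false),
      (1, 3, true), (1, 4, true), (4, 14, true), (4, 15, true), (5, 10, true), (5, 12, true),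
      (5, 14, true), (6, 9, true), (6, 10, true), (7, 9, true), (10, 12, true),
      (12, 14, true), (0, 1, false)]
      (by decide +kernel) (by decide +kernel) (by decide +kernel)

end PDS.H9
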