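import Pool.Agent.Helper70_PDS.Stmts

/-!
# TUBE2: tubes with vertices of degree 2
-/

namespace PDS

namespace H9

open Multiset

theorem hlt (w k s k' s' : ℕ) (hs : s < w) (hs' : s' < w) :
    k * w + s < k' * w + s' ↔ k < k' ∨ (k = k' ∧ s < s') := by
  rcases lt_trichotomy k k' with h | h | h
  · have h1 : (k + 1) * w ≤ k' * w := Nat.mul_le_mul_right w h
    have h2 : (k + 1) * w = k * w + w := by ring
    constructor
    · intro _
      exact Or.inl h
    · intro _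
      omega
  · subst h
    constructor
    · intro h
      exact Or.inr ⟨rfl, by omega⟩
    · rintro (h | ⟨_, h⟩)
      · omega
      · omega
  · have h1 : (k' + 1) * w ≤ k * w := Nat.mul_le_mul_right w h
    have h2 : (k' + 1) * w = k' * w + w := by ring
    constructor
    · intro _
      omega
    · rintro (h | ⟨h, _⟩)
      · omega
      · omega

theorem hle (w k s k' s' : ℕ) (hs : s < w) (hs' : s' < w) :
    k * w + s ≤ k' * w + s' ↔ ¬ (k' < k ∨ (k' = k ∧ s' < s)) := by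
  rw [← hlt w k' s' k s hs' hs, not_lt]

/-- the family of tubes with vertices of degree 2 -/
def F2 (K b : ℕ) : Cyl (Fin K × Fin (b + 2)) where
  h q := q.1.val * (b + 2) + q.2.val
  E _ p q := (q.1.val = p.1.val ∧ ((p.2.val = 0 ∧ q.2.val = 0) ∨
    (p.2.val = b + 1 ∧ q.2.val = 0) ∨ (p.2.val = b + 1 ∧ q.2.val = b + 1))) ∨
    (p.1.val = q.1.val + 1 ∧ p.2.val = 0 ∧ q.2.val = b + 1)
  A _ p q := (q.1.val = p.1.val ∧ p.2.val = 0 ∧ 1 ≤ q.2.val) ∨
    (q.1.val = p.1.val + 1 ∧ p.2.val = b + 1 ∧ q.2.val = 0)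
  B _ p q := q.1.val = p.1.val ∧ 1 ≤ p.2.val ∧ p.2.val ≤ b ∧ q.2.val = b + 1
  inj := by
    rintro ⟨⟨k, hk⟩, ⟨s, hs⟩⟩ ⟨⟨k', hk'⟩, ⟨s', hs'⟩⟩ h
    simp only at h
    have h1 := hlt (b + 2) k s k' s' hs hs'
    have h2 := hlt (b + 2) k' s' k s hs' hs
    have h3 : k = k' ∧ s = s' := by omega
    obtain ⟨rfl, rfl⟩ := h3
    rfl
  mono := by
    rintro c ⟨⟨k, hk⟩, ⟨s, hs⟩⟩ ⟨⟨k', hk'⟩, ⟨s', hs'⟩⟩ ⟨⟨l, hl⟩, ⟨t, ht⟩⟩ ⟨⟨l', hl'⟩, ⟨t', ht'⟩⟩ h1 h2 h3
    simp only at h1 h2 h3 ⊢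
    rw [hlt _ _ _ _ _ hs ht] at h3
    rw [hle _ _ _ _ _ hs' ht']
    omega
  A_lt := by
    rintro c ⟨⟨k, hk⟩, ⟨s, hs⟩⟩ ⟨⟨k', hk'⟩, ⟨s', hs'⟩⟩ h1
    simp only at h1 ⊢
    rw [hlt _ _ _ _ _ hs hs']
    omega
  B_lt := by
    rintro c ⟨⟨k, hk⟩, ⟨s, hs⟩⟩ ⟨⟨k', hk'⟩, ⟨s', hs'⟩⟩ h1
    simp only at h1 ⊢
    rw [hlt _ _ _ _ _ hs hs']
    omega
  AB := by
    rintro c ⟨⟨k, hk⟩, ⟨s, hs⟩⟩ ⟨⟨k', hk'⟩, ⟨s', hs'⟩⟩ h1 h2
    simp only at h1 h2
    omega
  A_E := by
    rintro c ⟨⟨k, hk⟩, ⟨s, hs⟩⟩ ⟨⟨k', hk'⟩, ⟨s', hs'⟩⟩ ⟨⟨l, hl⟩, ⟨t, ht⟩⟩ ⟨⟨l', hl'⟩, ⟨t', ht'⟩⟩ h1 h2 h3 h4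
    simp only at h1 h2 h3 h4
    rw [hlt _ _ _ _ _ hs ht] at h2
    rw [hlt _ _ _ _ _ ht hs'] at h3
    omega
  B_E := by
    rintro c ⟨⟨k, hk⟩, ⟨s, hs⟩⟩ ⟨⟨k', hk'⟩, ⟨s', hs'⟩⟩ ⟨⟨l, hl⟩, ⟨t, ht⟩⟩ ⟨⟨l', hl'⟩, ⟨t', ht'⟩⟩ h1 h2 h3 h4
    simp only at h1 h2 h3 h4
    rw [hlt _ _ _ _ _ hs ht] at h2
    rw [hlt _ _ _ _ _ ht hs'] at h3
    omega
  A_A := by
    rintro c ⟨⟨k, hk⟩, ⟨s, hs⟩⟩ ⟨⟨k', hk'⟩, ⟨s', hs'⟩⟩ ⟨⟨l, hl⟩, ⟨t, ht⟩⟩ ⟨⟨l', hl'⟩, ⟨t', ht'⟩⟩ h1 h2 h3 h4
    simp only at h1 h2 h3 h4 ⊢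
    rw [hlt _ _ _ _ _ hs ht] at h3
    rw [hlt _ _ _ _ _ ht hs'] at h4
    rw [hle _ _ _ _ _ ht' hs']
    omega
  B_B := by
    rintro c ⟨⟨k, hk⟩, ⟨s, hs⟩⟩ ⟨⟨k', hk'⟩, ⟨s', hs'⟩⟩ ⟨⟨l, hl⟩, ⟨t, ht⟩⟩ ⟨⟨l', hl'⟩, ⟨t', ht'⟩⟩ h1 h2 h3 h4
    simp only at h1 h2 h3 h4 ⊢
    rw [hlt _ _ _ _ _ hs ht] at h3
    rw [hlt _ _ _ _ _ ht hs'] at h4
    rw [hle _ _ _ _ _ ht' hs']
    omega

theorem nc_iv {K w : ℕ} (k l u : ℕ) (hk : k < K) (hu : u ≤ w) (S : Set (Fin K × Fin w))
    (hS : ∀ r : Fin K × Fin w, r ∈ S ↔ r.1.val = k ∧ l ≤ r.2.val ∧ r.2.val < u) :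
    S.ncard = u - l := by
  have h1 : S = ((fun j : Fin K × Fin w => (j.1.val, j.2.val)) ⁻¹' (({k} : Set ℕ) ×ˢ Set.Ico l u)) := by
    ext r
    rw [hS]
    simp
  have h2 : (fun j : Fin K × Fin w => (j.1.val, j.2.val)) '' S = ({k} : Set ℕ) ×ˢ Set.Ico l u := by
    ext ⟨x, y⟩
    constructor
    · rintro ⟨r, hr, h⟩
      rw [h1] at hr
      rw [← h]
      exact hr
    · intro h
      simp only [Set.mem_prod, Set.mem_singleton_iff, Set.mem_Ico] at h
      refine ⟨(⟨x, by omega⟩, ⟨y, by omega⟩), ?_, rfl⟩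
      rw [hS]
      exact h
  have h3 : Function.Injective (fun j : Fin K × Fin w => (j.1.val, j.2.val)) := by
    rintro ⟨a, b⟩ ⟨c, d⟩ h
    simp only [Prod.mk.injEq] at h
    exact Prod.ext (Fin.ext h.1) (Fin.ext h.2)
  rw [← Set.ncard_image_of_injective S h3, h2, Set.ncard_prod, Set.ncard_singleton, one_mul]
  rw [← Finset.coe_Ico, Set.ncard_coe_finset, Nat.card_Ico]

theorem nc_one {K w : ℕ} (k s : ℕ) (hk : k < K) (hs : s < w) (S : Set (Fin K × Fin w))
    (hS : ∀ r : Fin K × Fin w, r ∈ S ↔ r.1.val = k ∧ r.2.val = s) : S.ncard = 1 := by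
  rw [nc_iv k s (s + 1) hk (by omega) S]
  · omega
  · intro r
    rw [hS]
    omega

theorem nc_two {K w : ℕ} (k s k' s' : ℕ) (hk : k < K) (hs : s < w) (hk' : k' < K) (hs' : s' < w)
    (hne : ¬ (k = k' ∧ s = s')) (S : Set (Fin K × Fin w))
    (hS : ∀ r : Fin K × Fin w, r ∈ S ↔ (r.1.val = k ∧ r.2.val = s) ∨ (r.1.val = k' ∧ r.2.val = s')) :
    S.ncard = 2 := by
  have h1 : S = {(⟨k, hk⟩, ⟨s, hs⟩), (⟨k', hk'⟩, ⟨s', hs'⟩)} := by
    ext ⟨a, b⟩
    rw [hS]
    simp only [Set.mem_insert_iff, Set.mem_singleton_iff, Prod.mk.injEq, Fin.ext_iff]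
  rw [h1, Set.ncard_pair]
  intro h
  simp only [Prod.mk.injEq, Fin.mk.injEq] at h
  exact hne h

theorem nc_zero {K w : ℕ} (S : Set (Fin K × Fin w)) (hS : ∀ r : Fin K × Fin w, r ∉ S) :
    S.ncard = 0 := by
  rw [Set.eq_empty_of_forall_notMem hS, Set.ncard_empty]

theorem deg_low0 (K b : ℕ) (c : Fin 4) (q : Fin K × Fin (b + 2)) (hk : q.1.val = 0)
    (hs : q.2.val = 0) : dg (F2 K b).graph (c, q) = b + 4 := by
  have hK : 0 < K := by have := q.1.isLt; omega
  rw [Cyl.degree]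
  rw [nc_iv 0 1 (b + 2) hK le_rfl {r | (F2 K b).A c q r}, nc_zero {r | (F2 K b).A c r q},
    nc_zero {r | (F2 K b).B c q r}, nc_zero {r | (F2 K b).B c r q},
    nc_one 0 0 hK (by omega) {r | (F2 K b).E c q r},
    nc_two 0 0 0 (b + 1) hK (by omega) hK (by omega) (by omega) {r | (F2 K b).E (c - 1) r q}]
  · omega
  all_goals
    intro r
    have h1 := r.1.isLt
    have h2 := r.2.isLt
    simp only [Set.mem_ofPred_eq, F2]
    omega

theorem deg_low1 (K b : ℕ) (c : Fin 4) (q : Fin K × Fin (b + 2)) (hk : q.1.val ≠ 0)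
    (hs : q.2.val = 0) : dg (F2 K b).graph (c, q) = b + 6 := by
  have hK := q.1.isLt
  rw [Cyl.degree]
  rw [nc_iv q.1.val 1 (b + 2) hK le_rfl {r | (F2 K b).A c q r},
    nc_one (q.1.val - 1) (b + 1) (by omega) (by omega) {r | (F2 K b).A c r q},
    nc_zero {r | (F2 K b).B c q r}, nc_zero {r | (F2 K b).B c r q},
    nc_two q.1.val 0 (q.1.val - 1) (b + 1) hK (by omega) (by omega) (by omega) (by omega)
      {r | (F2 K b).E c q r},
    nc_two q.1.val 0 q.1.val (b + 1) hK (by omega) hK (by omega) (by omega)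
      {r | (F2 K b).E (c - 1) r q}]
  · omega
  all_goals
    intro r
    have h1 := r.1.isLt
    have h2 := r.2.isLt
    simp only [Set.mem_ofPred_eq, F2]
    omega

theorem deg_high0 (K b : ℕ) (c : Fin 4) (q : Fin K × Fin (b + 2)) (hk : q.1.val + 1 = K)
    (hs : q.2.val = b + 1) : dg (F2 K b).graph (c, q) = b + 4 := by
  have hK := q.1.isLt
  rw [Cyl.degree]
  rw [nc_zero {r | (F2 K b).A c q r},
    nc_one q.1.val 0 hK (by omega) {r | (F2 K b).A c r q},
    nc_zero {r | (F2 K b).B c q r},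
    nc_iv q.1.val 1 (b + 1) hK (by omega) {r | (F2 K b).B c r q},
    nc_two q.1.val 0 q.1.val (b + 1) hK (by omega) hK (by omega) (by omega)
      {r | (F2 K b).E c q r},
    nc_one q.1.val (b + 1) hK (by omega) {r | (F2 K b).E (c - 1) r q}]
  · omega
  all_goals
    intro r
    have h1 := r.1.isLt
    have h2 := r.2.isLt
    simp only [Set.mem_ofPred_eq, F2]
    omega

theorem deg_high1 (K b : ℕ) (c : Fin 4) (q : Fin K × Fin (b + 2)) (hk : q.1.val + 1 ≠ K)
    (hs : q.2.val = b + 1) : dg (F2 K b).graph (c, q) = b + 6 := by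
  have hK := q.1.isLt
  rw [Cyl.degree]
  rw [nc_one (q.1.val + 1) 0 (by omega) (by omega) {r | (F2 K b).A c q r},
    nc_one q.1.val 0 hK (by omega) {r | (F2 K b).A c r q},
    nc_zero {r | (F2 K b).B c q r},
    nc_iv q.1.val 1 (b + 1) hK (by omega) {r | (F2 K b).B c r q},
    nc_two q.1.val 0 q.1.val (b + 1) hK (by omega) hK (by omega) (by omega)
      {r | (F2 K b).E c q r},
    nc_two q.1.val (b + 1) (q.1.val + 1) 0 hK (by omega) (by omega) (by omega) (by omega)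
      {r | (F2 K b).E (c - 1) r q}]
  · omega
  all_goals
    intro r
    have h1 := r.1.isLt
    have h2 := r.2.isLt
    simp only [Set.mem_ofPred_eq, F2]
    omega

theorem deg_mid (K b : ℕ) (c : Fin 4) (q : Fin K × Fin (b + 2)) (h1 : q.2.val ≠ 0)
    (h2 : q.2.val ≠ b + 1) : dg (F2 K b).graph (c, q) = 2 := by
  have hK := q.1.isLt
  have hK2 := q.2.isLt
  rw [Cyl.degree]
  rw [nc_zero {r | (F2 K b).A c q r},
    nc_one q.1.val 0 hK (by omega) {r | (F2 K b).A c r q},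
    nc_one q.1.val (b + 1) hK (by omega) {r | (F2 K b).B c q r},
    nc_zero {r | (F2 K b).B c r q}, nc_zero {r | (F2 K b).E c q r},
    nc_zero {r | (F2 K b).E (c - 1) r q}]
  all_goals
    intro r
    have h1 := r.1.isLt
    have h2 := r.2.isLt
    simp only [Set.mem_ofPred_eq, F2]
    omega

/-- the vertices whose degree has to be raised -/
def low (K b : ℕ) (v : Fin 4 × Fin K × Fin (b + 2)) : Prop :=
  (v.2.1.val = 0 ∧ v.2.2.val = 0) ∨ (v.2.1.val + 1 = K ∧ v.2.2.val = b + 1)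

instance (K b : ℕ) : DecidablePred (low K b) := fun v => by unfold low; infer_instance

/-- the poles -/
def pole (K b : ℕ) (v : Fin 4 × Fin K × Fin (b + 2)) : Prop :=
  v.2.2.val = 0 ∨ v.2.2.val = b + 1

instance (K b : ℕ) : DecidablePred (pole K b) := fun v => by unfold pole; infer_instance

theorem deg_all (K b : ℕ) (v : Fin 4 × Fin K × Fin (b + 2)) :
    dg (F2 K b).graph v + 2 * (if low K b v then 1 else 0) = if pole K b v then b + 6 else 2 := by
  obtain ⟨c, q⟩ := v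
  by_cases h0 : q.2.val = 0
  · have hp : pole K b (c, q) := Or.inl h0
    rw [if_pos hp]
    by_cases hk : q.1.val = 0
    · have hl : low K b (c, q) := Or.inl ⟨hk, h0⟩
      rw [if_pos hl, deg_low0 K b c q hk h0]
    · have hl : ¬ low K b (c, q) := by unfold low; simp only; omega
      rw [if_neg hl, deg_low1 K b c q hk h0]
  · by_cases h1 : q.2.val = b + 1
    · have hp : pole K b (c, q) := Or.inr h1
      rw [if_pos hp]
      by_cases hk : q.1.val + 1 = K
      · have hl : low K b (c, q) := Or.inr ⟨hk, h1⟩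
        rw [if_pos hl, deg_high0 K b c q hk h1]
      · have hl : ¬ low K b (c, q) := by unfold low; simp only; omega
        rw [if_neg hl, deg_high1 K b c q hk h1]
    · have hp : ¬ pole K b (c, q) := by unfold pole; simp only; omega
      have hl : ¬ low K b (c, q) := by unfold low; simp only; omega
      rw [if_neg hp, if_neg hl, deg_mid K b c q h0 h1]

theorem card_pole (K b : ℕ) : (Finset.univ.filter (pole K b)).card = 8 * K := by
  have h : Finset.univ.filter (pole K b) =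
      (Finset.univ : Finset (Fin 4)) ×ˢ ((Finset.univ : Finset (Fin K)) ×ˢ
        ({0, Fin.last (b + 1)} : Finset (Fin (b + 2)))) := by
    ext v
    simp only [Finset.mem_filter, Finset.mem_univ, true_and, Finset.mem_product, pole,
      Finset.mem_insert, Finset.mem_singleton, Fin.ext_iff, Fin.val_last, Fin.val_zero]
  rw [h, Finset.card_product, Finset.card_product, Finset.card_pair, Finset.card_univ,
    Finset.card_univ, Fintype.card_fin, Fintype.card_fin]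
  · ring
  · intro h
    rw [Fin.ext_iff] at h
    simp at h

theorem card_npole (K b : ℕ) : (Finset.univ.filter fun v => ¬ pole K b v).card = 4 * K * b := by
  have h := Finset.card_filter_add_card_filter_not (s := (Finset.univ : Finset (Fin 4 × Fin K × Fin (b + 2))))
    (p := pole K b)
  rw [card_pole, Finset.card_univ, Fintype.card_prod, Fintype.card_prod, Fintype.card_fin,
    Fintype.card_fin, Fintype.card_fin] at h
  have h2 : 4 * (K * (b + 2)) = 8 * K + 4 * K * b := by ring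
  omega

theorem card_low (K b : ℕ) (hK : 1 ≤ K) : (Finset.univ.filter (low K b)).card = 8 := by
  have h : Finset.univ.filter (low K b) =
      (Finset.univ : Finset (Fin 4)) ×ˢ
        ({(⟨0, by omega⟩, 0), (⟨K - 1, by omega⟩, Fin.last (b + 1))} :
          Finset (Fin K × Fin (b + 2))) := by
    ext v
    simp only [Finset.mem_filter, Finset.mem_univ, true_and, Finset.mem_product, low,
      Finset.mem_insert, Finset.mem_singleton, Prod.ext_iff, Fin.ext_iff, Fin.val_last,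
      Fin.val_zero]
    omega
  rw [h, Finset.card_product, Finset.card_pair, Finset.card_univ, Fintype.card_fin]
  intro h
  rw [Prod.ext_iff, Fin.ext_iff, Fin.ext_iff] at h
  simp at h

theorem tube2 (h : Raise 2 2 2) (hf : FillStmt) : Tube 2 := by
  intro b K
  have hbook : Book2 (F2 K b).graph := Cyl.book _
  have h0 : Rz ((Finset.univ : Finset (Fin 4 × Fin K × Fin (b + 2))).val.map
      (dg (F2 K b).graph) + 0) := by
    rw [add_zero]
    exact ⟨_, inferInstance, (F2 K b).graph, hbook, rfl⟩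
  have h1 := hf 2 2 2 h (Fin 4 × Fin K × Fin (b + 2)) (dg (F2 K b).graph)
    (fun v => if low K b v then 1 else 0) 0 h0
  have h2 : (Finset.univ : Finset (Fin 4 × Fin K × Fin (b + 2))).val.map
      (fun v => dg (F2 K b).graph v + 2 * (if low K b v then 1 else 0)) =
      replicate (8 * K) (b + 6) + replicate (4 * K * b) 2 := by
    have h3 : (fun v => dg (F2 K b).graph v + 2 * (if low K b v then 1 else 0)) =
        fun v => if pole K b v then b + 6 else 2 := by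
      funext v
      exact deg_all K b v
    rw [h3]
    rw [← Multiset.filter_add_not (pole K b) (Finset.univ : Finset (Fin 4 × Fin K × Fin (b + 2))).val,
      Multiset.map_add]
    congr 1
    · rw [Multiset.map_congr rfl (g := fun _ => b + 6), Multiset.map_const']
      · congr 1
        exact card_pole K b
      · intro v hv
        rw [Multiset.mem_filter] at hv
        simp only [if_pos hv.2]
    · rw [Multiset.map_congr rfl (g := fun _ => 2), Multiset.map_const']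
      · congr 1
        exact card_npole K b
      · intro v hv
        rw [Multiset.mem_filter] at hv
        simp only [if_neg hv.2]
  rw [h2, add_zero, add_assoc, ← Multiset.replicate_add] at h1
  refine ⟨4 * K * b + 2 * ∑ v : Fin 4 × Fin K × Fin (b + 2), (if low K b v then 1 else 0), ?_, h1⟩
  have h4 : (∑ v : Fin 4 × Fin K × Fin (b + 2), (if low K b v then 1 else 0)) ≤ 8 := by
    rw [← Finset.card_filter]
    rcases Nat.eq_zero_or_pos K with hK | hK
    · subst hK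
      simp
    · rw [card_low K b hK]
  have h5 : cap 2 = 2 := rfl
  rw [h5]
  have h6 : 8 * K * b = 2 * (4 * K * b) := by ring
  omega

end H9

end PDS
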